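import Pool.Agent.W525.CB.Stm

namespace Pool.Agent.W490.CB.CH

open Pool.Agent.W525.CB

theorem main : S_CH := by
  intro n k E _ _ _ x y hD
  refine ⟨?_, ?_, ?_⟩
  · intro σ a ha
    have h01 : σ 0 ≠ σ 1 := fun h => by
      have h1 := σ.injective h
      exact absurd (congrArg Fin.val h1) (by simp)
    have hxa : xiX x y a = x (σ 0) * uu x y (σ 0) (σ 1) := by
      unfold xiX
      rw [ha]
    have hx0 := hD.nx (σ 0)
    have hu0 := hD.nu _ _ h01
    apply le_antisymm
    · rw [Algebra.adjoin_le_iff]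
      rintro _ ⟨b, rfl⟩
      have hs : ∀ i, x i / x (σ 0) ∈ AX k x y σ := fun i =>
        Algebra.subset_adjoin (Or.inl ⟨σ.symm i, by unfold ss; rw [Equiv.apply_symm_apply]⟩)
      have ht : ∀ i, uu x y (σ 0) i / uu x y (σ 0) (σ 1) ∈ AX k x y σ := fun i =>
        Algebra.subset_adjoin (Or.inr ⟨σ.symm i, by unfold tt; rw [Equiv.apply_symm_apply]⟩)
      have e : xiX x y b / xiX x y a = (x b.1.1 / x (σ 0)) *
          ((x b.1.2.1 / x (σ 0)) ^ 2 * (uu x y (σ 0) b.1.2.2 / uu x y (σ 0) (σ 1)) -
            (x b.1.2.2 / x (σ 0)) ^ 2 * (uu x y (σ 0) b.1.2.1 / uu x y (σ 0) (σ 1))) := by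
        rw [hxa]
        unfold xiX
        have e2 : x (σ 0) ^ 2 * uu x y b.1.2.1 b.1.2.2 =
            x b.1.2.1 ^ 2 * uu x y (σ 0) b.1.2.2 - x b.1.2.2 ^ 2 * uu x y (σ 0) b.1.2.1 := by
          unfold uu
          ring
        generalize uu x y (σ 0) (σ 1) = u at *
        field_simp
        linear_combination x b.1.1 * e2
      show xiX x y b / xiX x y a ∈ AX k x y σ
      rw [e]
      exact mul_mem (hs _) (sub_mem (mul_mem (pow_mem (hs _) 2) (ht _))
        (mul_mem (pow_mem (hs _) 2) (ht _)))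
    · unfold AX
      rw [Algebra.adjoin_le_iff]
      rintro _ (⟨i, rfl⟩ | ⟨i, rfl⟩)
      · refine Algebra.subset_adjoin ⟨⟨(σ i, σ 0, σ 1), h01⟩, ?_⟩
        show xiX x y _ / xiX x y a = _
        rw [hxa]
        unfold xiX ss
        simp only
        field_simp
      · by_cases h : σ i = σ 0
        · have e : tt x y σ i = 0 := by
            unfold tt uu
            rw [h]
            simp
          rw [e]
          exact zero_mem _
        · refine Algebra.subset_adjoin ⟨⟨(σ 0, σ 0, σ i), fun h2 => h h2.symm⟩, ?_⟩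
          show xiX x y _ / xiX x y a = _
          rw [hxa]
          unfold xiX tt
          simp only
          field_simp
  · intro σ
    unfold AZ
    congr 1
    ext z
    constructor
    · rintro ⟨b, rfl⟩
      exact ⟨σ.symm b, by unfold ss; rw [Equiv.apply_symm_apply]⟩
    · rintro ⟨i, rfl⟩
      exact ⟨σ i, rfl⟩
  · intro σ
    exact Algebra.adjoin_mono Set.subset_union_left

end Pool.Agent.W490.CB.CH
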